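import Mathlib
import Pool.Agent.Helper58.PseudofanDefs
import Pool.Agent.Helper58.PseudofanProof

set_option autoImplicit false

namespace Pool.Agent.Results.MP_d9dcf6_co.PseudofanFalse

open Pool.Agent.Helper58.Pseudofan

/-- **The pseudofan conjecture is false** in every dimension `n ≥ 3`, even for minimal
pseudofans. -/
theorem result : ∀ n : ℕ, 3 ≤ n → ∃ (m : ℕ) (V : Matrix (Fin n) (Fin m) ℤ)
    (C : Set (Set (Fin n → ℝ))), IsFMatrix V ∧ IsMinimalPseudofan V C ∧
      ∀ S ∈ SF V, C ≠ maxCones S :=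
  fun n hn => main n hn

end Pool.Agent.Results.MP_d9dcf6_co.PseudofanFalse
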